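import Mathlib

/-!
# MXS does not imply EEF1 for additive goods

`M` is the finite set of items, agent `i : Fin n` has the additive valuation given by the item
values `v i : M → ℝ`, and an allocation is a map `A : M → Fin n` (item `g` goes to agent `A g`).

For every number `n ≥ 3` of agents there is an instance with identical positive valuations and an
allocation which is MXS for every agent and not EEF1 for some agent. For `n = 3` the items are
`40, 30, 30, 26`, again `40, 30, 30, 26`, and `20, 27, 27, 26`; the agent which is not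
EEF1-satisfied has the bundle `{40, 40, 20}`. Every one of the nine other items is worth more than
a quarter of this bundle, so at most four of them fit in another bundle.
-/

set_option autoImplicit false

namespace Pool.Agent.Results.MP_a41a76_co.MXSNotEEF1

open Finset

/-- The additive value of the set `S` of items when the single items have the values `u g`. -/
def val {M : Type} (u : M → ℝ) (S : Finset M) : ℝ := ∑ g ∈ S, u g

/-- The bundle of agent `i` in the allocation `A`. -/
def bundle {M : Type} [Fintype M] {n : ℕ} (A : M → Fin n) (i : Fin n) : Finset M :=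
  univ.filter (fun g => A g = i)

/-- Agent `i`, with item values `u`, is EF1-satisfied by the allocation `A`. -/
def EF1Sat {M : Type} [Fintype M] [DecidableEq M] {n : ℕ} (u : M → ℝ) (A : M → Fin n)
    (i : Fin n) : Prop :=
  ∀ j, j ≠ i → val u (bundle A j) ≤ val u (bundle A i) ∨
    ∃ g ∈ bundle A j, val u ((bundle A j).erase g) ≤ val u (bundle A i)

/-- `A` is EEF1 for agent `i` with item values `u`: some allocation `B` with `B_i = A_i`
EF1-satisfies agent `i`. -/
def EEF1 {M : Type} [Fintype M] [DecidableEq M] {n : ℕ} (u : M → ℝ) (A : M → Fin n)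
    (i : Fin n) : Prop :=
  ∃ B : M → Fin n, bundle B i = bundle A i ∧ EF1Sat u B i

/-- Agent `i`, with item values `u`, is EFX-satisfied by the allocation `B`. -/
def EFXSat {M : Type} [Fintype M] [DecidableEq M] {n : ℕ} (u : M → ℝ) (B : M → Fin n)
    (i : Fin n) : Prop :=
  ∀ j, j ≠ i → ∀ g ∈ bundle B j, 0 < u g → val u ((bundle B j).erase g) ≤ val u (bundle B i)

/-- `A` is MXS for agent `i` with item values `u`: some allocation `B` EFX-satisfies agent `i` and
`u(A_i) ≥ u(B_i)`. -/
def MXS {M : Type} [Fintype M] [DecidableEq M] {n : ℕ} (u : M → ℝ) (A : M → Fin n)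
    (i : Fin n) : Prop :=
  ∃ B : M → Fin n, EFXSat u B i ∧ val u (bundle B i) ≤ val u (bundle A i)

/-! ## The instance with `k + 1` agents: the items are `k` groups of four and one further group -/

/-- values of a group -/
def grp : Fin 4 → ℕ := ![40, 30, 30, 26]

/-- values of the last group -/
def last4 : Fin 4 → ℕ := ![20, 27, 27, 26]

/-- item values -/
def w (k : ℕ) : (Fin k × Fin 4) ⊕ Fin 4 → ℝ
  | Sum.inl p => (grp p.2 : ℝ)
  | Sum.inr q => (last4 q : ℝ)

/-- the allocation in which agent `i` gets the last group and the others get the other groups -/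
def Bx (k : ℕ) (i : Fin (k + 1)) : (Fin k × Fin 4) ⊕ Fin 4 → Fin (k + 1)
  | Sum.inl p => i.succAbove p.1
  | Sum.inr _ => i

/-- the allocation: agent `0` gets the items `40` of the groups `0` and `1` and the item `20`;
agent `j + 1` gets the rest of group `j`, and agents `1`, `2` get the rest of the last group -/
def Ax (k : ℕ) : (Fin (k + 2) × Fin 4) ⊕ Fin 4 → Fin (k + 3)
  | Sum.inl p => if (p.1 = 0 ∨ p.1 = 1) ∧ p.2 = 0 then 0 else p.1.succ
  | Sum.inr q => if q = 0 then 0 else if q = 1 then Fin.succ 0 else Fin.succ 1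

lemma val_bundle {M : Type} [Fintype M] {n : ℕ} (u : M → ℝ) (A : M → Fin n) (i : Fin n) :
    val u (bundle A i) = ∑ g, if A g = i then u g else 0 := by
  unfold val bundle
  rw [sum_filter]

lemma val_Bx_self (k : ℕ) (i : Fin (k + 1)) : val (w k) (bundle (Bx k i) i) = 100 := by
  rw [val_bundle, Fintype.sum_sum_type]
  have h1 : ∀ p : Fin k × Fin 4, (if Bx k i (Sum.inl p) = i then w k (Sum.inl p) else 0) = 0 := by
    intro p
    rw [if_neg]
    exact Fin.succAbove_ne i p.1
  rw [sum_congr rfl (fun p _ => h1 p)]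
  simp [Bx, w, last4, Fin.sum_univ_four]
  norm_num

lemma bundle_Bx (k : ℕ) (i : Fin (k + 1)) (j : Fin k) :
    bundle (Bx k i) (i.succAbove j) = (univ : Finset (Fin 4)).image
      (fun q => (Sum.inl (j, q) : (Fin k × Fin 4) ⊕ Fin 4)) := by
  ext g
  simp only [bundle, mem_filter, mem_univ, true_and, mem_image]
  rcases g with ⟨a, q⟩ | q
  · simp only [Bx, Fin.succAbove_right_inj, Sum.inl.injEq, Prod.mk.injEq]
    constructor
    · rintro rfl
      exact ⟨q, rfl, rfl⟩
    · rintro ⟨_, rfl, _⟩
      rfl
  · simp only [Bx, reduceCtorEq, exists_false, iff_false]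
    exact (Fin.succAbove_ne i j).symm

lemma EFX_Bx (k : ℕ) (i : Fin (k + 1)) : EFXSat (w k) (Bx k i) i := by
  intro j hj g hg _
  obtain ⟨j', rfl⟩ := Fin.exists_succAbove_eq hj
  rw [val_Bx_self]
  have hg' := hg
  rw [bundle_Bx] at hg'
  simp only [mem_image, mem_univ, true_and] at hg'
  obtain ⟨q, rfl⟩ := hg'
  have h1 : val (w k) (bundle (Bx k i) (i.succAbove j')) = 126 := by
    rw [bundle_Bx]
    unfold val
    rw [sum_image (by intro a _ b _ h; simpa using h)]
    simp [w, grp, Fin.sum_univ_four]
    norm_num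
  have h2 : w k (Sum.inl (j', q)) + val (w k) ((bundle (Bx k i) (i.succAbove j')).erase
      (Sum.inl (j', q))) = 126 := by
    rw [← h1]
    exact add_sum_erase _ _ hg
  have h3 : (26 : ℝ) ≤ w k (Sum.inl (j', q)) := by
    fin_cases q <;> simp [w, grp] <;> norm_num
  linarith

lemma w_ge (k : ℕ) (g : (Fin k × Fin 4) ⊕ Fin 4) (hg : g ≠ Sum.inr 0) : (26 : ℝ) ≤ w k g := by
  rcases g with ⟨a, q⟩ | q
  · fin_cases q <;> simp [w, grp] <;> norm_num
  · fin_cases q
    · exact absurd rfl hg
    all_goals simp [w, last4]; try norm_num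

lemma w_pos (k : ℕ) (g : (Fin k × Fin 4) ⊕ Fin 4) : 0 < w k g := by
  by_cases hg : g = Sum.inr 0
  · subst hg; simp [w, last4]
  · linarith [w_ge k g hg]

lemma bundle_Ax_zero (k : ℕ) : bundle (Ax k) 0 =
    {Sum.inl (0, 0), Sum.inl (1, 0), Sum.inr 0} := by
  ext g
  simp only [bundle, mem_filter, mem_univ, true_and, mem_insert, mem_singleton]
  rcases g with ⟨a, q⟩ | q
  · simp only [Ax, Sum.inl.injEq, Prod.mk.injEq, reduceCtorEq, or_false]
    split_ifs with h
    · obtain ⟨h1 | h1, h2⟩ := h
      · exact ⟨fun _ => Or.inl ⟨h1, h2⟩, fun _ => rfl⟩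
      · exact ⟨fun _ => Or.inr ⟨h1, h2⟩, fun _ => rfl⟩
    · constructor
      · intro h'
        exact absurd h' (Fin.succ_ne_zero a)
      · rintro (⟨h1, h2⟩ | ⟨h1, h2⟩)
        · exact absurd ⟨Or.inl h1, h2⟩ h
        · exact absurd ⟨Or.inr h1, h2⟩ h
  · simp only [Ax, reduceCtorEq, Sum.inr.injEq, false_or]
    split_ifs with h1 h2
    · simp [h1]
    · exact ⟨fun h => absurd h (Fin.succ_ne_zero _), fun h => absurd h h1⟩
    · exact ⟨fun h => absurd h (Fin.succ_ne_zero _), fun h => absurd h h1⟩

lemma val_Ax_zero (k : ℕ) : val (w (k + 2)) (bundle (Ax k) 0) = 100 := by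
  rw [bundle_Ax_zero]
  unfold val
  rw [sum_insert, sum_insert, sum_singleton]
  · simp [w, grp, last4]
    norm_num
  · simp
  · simp

lemma val_mono {M : Type} [DecidableEq M] (u : M → ℝ) (hu : ∀ g, 0 ≤ u g) {S T : Finset M}
    (h : S ⊆ T) : val u S ≤ val u T :=
  sum_le_sum_of_subset_of_nonneg h (fun g _ _ => hu g)

lemma val_Ax (k : ℕ) (i : Fin (k + 3)) : 100 ≤ val (w (k + 2)) (bundle (Ax k) i) := by
  rcases Fin.eq_zero_or_eq_succ i with rfl | ⟨j, rfl⟩
  · rw [val_Ax_zero]
  · by_cases h0 : j = 0
    · subst h0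
      have hsub : ({Sum.inl (0, 1), Sum.inl (0, 2), Sum.inl (0, 3), Sum.inr 1} :
          Finset ((Fin (k + 2) × Fin 4) ⊕ Fin 4)) ⊆ bundle (Ax k) (Fin.succ 0) := by
        intro g hg
        simp only [mem_insert, mem_singleton] at hg
        simp only [bundle, mem_filter, mem_univ, true_and]
        rcases hg with rfl | rfl | rfl | rfl <;> simp [Ax]
      refine le_trans ?_ (val_mono _ (fun g => (w_pos _ g).le) hsub)
      unfold val
      rw [sum_insert (by simp), sum_insert (by simp), sum_insert (by simp), sum_singleton]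
      simp [w, grp, last4]
      norm_num
    · by_cases h1 : j = 1
      · subst h1
        have hsub : ({Sum.inl (1, 1), Sum.inl (1, 2), Sum.inl (1, 3), Sum.inr 2} :
            Finset ((Fin (k + 2) × Fin 4) ⊕ Fin 4)) ⊆ bundle (Ax k) (Fin.succ 1) := by
          intro g hg
          simp only [mem_insert, mem_singleton] at hg
          simp only [bundle, mem_filter, mem_univ, true_and]
          rcases hg with rfl | rfl | rfl | rfl <;> simp [Ax]
        refine le_trans ?_ (val_mono _ (fun g => (w_pos _ g).le) hsub)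
        unfold val
        rw [sum_insert (by simp), sum_insert (by simp), sum_insert (by simp), sum_singleton]
        simp [w, grp, last4]
        norm_num
      · have hsub : ({Sum.inl (j, 0), Sum.inl (j, 1), Sum.inl (j, 2), Sum.inl (j, 3)} :
            Finset ((Fin (k + 2) × Fin 4) ⊕ Fin 4)) ⊆ bundle (Ax k) j.succ := by
          intro g hg
          simp only [mem_insert, mem_singleton] at hg
          simp only [bundle, mem_filter, mem_univ, true_and]
          rcases hg with rfl | rfl | rfl | rfl <;> simp [Ax, h0, h1]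
        refine le_trans ?_ (val_mono _ (fun g => (w_pos _ g).le) hsub)
        unfold val
        rw [sum_insert (by simp), sum_insert (by simp), sum_insert (by simp), sum_singleton]
        simp [w, grp]
        norm_num

lemma not_EEF1 (k : ℕ) : ¬ EEF1 (w (k + 2)) (Ax k) 0 := by
  rintro ⟨B, hB0, hB⟩
  have hval : val (w (k + 2)) (bundle B 0) = 100 := by rw [hB0, val_Ax_zero]
  have hbig : ∀ g, B g ≠ 0 → (26 : ℝ) ≤ w (k + 2) g := by
    intro g hg
    apply w_ge
    rintro rfl
    apply hg
    have : (Sum.inr 0 : (Fin (k + 2) × Fin 4) ⊕ Fin 4) ∈ bundle B 0 := by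
      rw [hB0, bundle_Ax_zero]; simp
    simpa [bundle] using this
  have hcard : ∀ j, j ≠ 0 → (bundle B j).card ≤ 4 := by
    intro j hj
    by_contra hlt
    push Not at hlt
    have hge : ∀ S ⊆ bundle B j, (S.card : ℝ) * 26 ≤ val (w (k + 2)) S := by
      intro S hS
      have := card_nsmul_le_sum S (w (k + 2)) 26 (fun g hg => hbig g (by
        have := hS hg
        simp only [bundle, mem_filter, mem_univ, true_and] at this
        rw [this]; exact hj))
      simpa [val] using this
    have h5 : (5 : ℝ) ≤ (bundle B j).card := by exact_mod_cast hlt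
    rcases hB j hj with h | ⟨g, hg, h⟩
    · have := hge _ (Subset.refl _)
      rw [hval] at h
      linarith
    · have h1 := hge _ (erase_subset g (bundle B j))
      rw [card_erase_of_mem hg] at h1
      rw [hval] at h
      have h4 : (4 : ℝ) ≤ (((bundle B j).card - 1 : ℕ) : ℝ) := by
        have : 4 ≤ (bundle B j).card - 1 := by omega
        exact_mod_cast this
      linarith
  have htot : (univ : Finset ((Fin (k + 2) × Fin 4) ⊕ Fin 4)).card =
      ∑ j : Fin (k + 3), (bundle B j).card := by
    unfold bundle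
    exact card_eq_sum_card_fiberwise (fun g _ => mem_univ (B g))
  rw [Fin.sum_univ_succ, hB0, bundle_Ax_zero] at htot
  have hle : ∑ j : Fin (k + 2), (bundle B j.succ).card ≤ ∑ _j : Fin (k + 2), 4 :=
    sum_le_sum (fun j _ => hcard _ (Fin.succ_ne_zero j))
  have h3 : ({Sum.inl (0, 0), Sum.inl (1, 0), Sum.inr 0} :
      Finset ((Fin (k + 2) × Fin 4) ⊕ Fin 4)).card ≤ 3 := card_le_three
  simp only [card_univ, Fintype.card_sum, Fintype.card_prod, Fintype.card_fin, sum_const,
    smul_eq_mul] at htot hle
  omega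

/-- For every `n ≥ 3` there are a finite set of items, identical positive additive valuations of
`n` agents and an allocation that is MXS for every agent and not EEF1 for some agent. -/
theorem result : ∀ n : ℕ, 3 ≤ n →
    ∃ (M : Type) (_ : Fintype M) (_ : DecidableEq M) (v : Fin n → M → ℝ) (A : M → Fin n),
      (∀ i g, 0 < v i g) ∧ (∀ i j, v i = v j) ∧
      (∀ i, MXS (v i) A i) ∧ ∃ i, ¬ EEF1 (v i) A i := by
  intro n hn
  obtain ⟨k, rfl⟩ : ∃ k, n = k + 3 := ⟨n - 3, by omega⟩
  refine ⟨(Fin (k + 2) × Fin 4) ⊕ Fin 4, inferInstance, inferInstance, fun _ => w (k + 2),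
    Ax k, fun _ g => w_pos _ g, fun _ _ => rfl, fun i => ⟨Bx (k + 2) i, EFX_Bx _ i, ?_⟩,
    0, not_EEF1 k⟩
  rw [val_Bx_self]
  exact val_Ax k i

end Pool.Agent.Results.MP_a41a76_co.MXSNotEEF1
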